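import Mathlib

namespace Pool.Agent.Results.MP_2f3180_ag.NoPolya

open MvPowerSeries Finsupp

open Classical in
/-- The power sum `p_k` as a formal power series in countably many variables. -/
noncomputable def psum (k : ℕ) : MvPowerSeries ℕ ℝ :=
  fun m => if ∃ i, m = single i k then 1 else 0

/-- The monomial symmetric function of the partition with multiset of parts `s`. -/
noncomputable def msym (s : Multiset ℕ) : MvPowerSeries ℕ ℝ :=
  fun m => if m.support.val.map m = s then 1 else 0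

/-- The even symmetric function `g(p_2, p_4, …)`. -/
noncomputable def ser (g : MvPolynomial ℕ ℝ) : MvPowerSeries ℕ ℝ :=
  MvPolynomial.aeval (fun j => psum (2 * (j + 1))) g

/-- Its value `g(p_2(x), p_4(x), …)` at a sequence `x`. -/
noncomputable def val (g : MvPolynomial ℕ ℝ) (x : ℕ → ℝ) : ℝ :=
  MvPolynomial.eval (fun j => ∑' i, x i ^ (2 * (j + 1))) g

theorem lemA (r : ℕ) (hr : r ≠ 0) (m : ℕ →₀ ℕ) (P : MvPowerSeries ℕ ℝ) :
    coeff m (P * psum r) =
      ∑ i ∈ m.support, if single i r ≤ m then coeff (m - single i r) P else 0 := by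
  classical
  have h1 : coeff m (P * psum r) = coeff m (P * ∑ i ∈ m.support, monomial (single i r) 1) := by
    rw [coeff_mul, coeff_mul]
    refine Finset.sum_congr rfl fun p hp => ?_
    congr 1
    rw [map_sum]
    simp only [coeff_monomial]
    show (if ∃ i, p.2 = single i r then (1 : ℝ) else 0) = _
    split_ifs with h
    · obtain ⟨i, hi⟩ := h
      have hm : i ∈ m.support := by
        have := DFunLike.congr_fun (Finset.HasAntidiagonal.mem_antidiagonal.1 hp) i
        simp only [hi, Finsupp.add_apply, single_eq_same] at this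
        rw [mem_support_iff]; omega
      rw [Finset.sum_eq_single_of_mem i hm, if_pos hi]
      intro j _ hj
      rw [if_neg]
      rw [hi]
      exact fun h => hj (single_left_injective hr h).symm
    · exact (Finset.sum_eq_zero fun i _ => if_neg fun h' => h ⟨i, h'⟩).symm
  rw [h1, Finset.mul_sum, map_sum]
  simp only [coeff_mul_monomial, mul_one]

/-- shape: exponent `2a` at `0`, and `b` further exponents `2` -/
def Sh (m : ℕ →₀ ℕ) (a b : ℕ) : Prop :=
  m 0 = 2 * a ∧ (∀ i ≠ 0, m i = 0 ∨ m i = 2) ∧ (m.support.erase 0).card = b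

theorem sh0 {m : ℕ →₀ ℕ} {a b r : ℕ} (h : Sh m (a + r) b) : Sh (m - single 0 (2 * r)) a b := by
  obtain ⟨h1, h2, h3⟩ := h
  refine ⟨by simp [h1]; omega, fun i hi => by simpa [single_apply, hi.symm] using h2 i hi, ?_⟩
  rw [← h3]; congr 1; ext i
  by_cases hi : i = 0
  · simp [hi]
  · simp [hi, single_apply, Ne.symm hi]

theorem sh1 {m : ℕ →₀ ℕ} {a b i : ℕ} (h : Sh m a b) (hi : i ∈ m.support.erase 0) :
    Sh (m - single i 2) a (b - 1) := by
  obtain ⟨h1, h2, h3⟩ := h
  have hi0 := (Finset.mem_erase.1 hi).1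
  refine ⟨by simp [h1, single_apply, hi0], fun j hj => ?_, ?_⟩
  · have := h2 j hj
    by_cases hij : i = j <;> simp [single_apply, hij] <;> omega
  · rw [← h3, ← Finset.card_erase_of_mem hi]; congr 1; ext j
    by_cases hj : j = 0
    · simp [hj]
    · have := h2 j hj
      by_cases hij : i = j
      · simp [single_apply, hij]; omega
      · simp [single_apply, hij, hj, Ne.symm hij]

theorem sum_split (m : ℕ →₀ ℕ) (F : ℕ → ℝ) (h : m 0 = 0 → F 0 = 0) :
    ∑ i ∈ m.support, F i = F 0 + ∑ i ∈ m.support.erase 0, F i := by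
  by_cases h0 : 0 ∈ m.support
  · rw [Finset.add_sum_erase _ _ h0]
  · rw [Finset.erase_eq_of_notMem h0, h (by simpa using h0), zero_add]

theorem lemB (j : ℕ) : ∀ (m : ℕ →₀ ℕ) (a b : ℕ), Sh m a b → a + b = j →
    coeff m (psum 2 ^ j) * a.factorial = j.factorial := by
  classical
  induction j with
  | zero =>
    intro m a b h hab
    obtain ⟨rfl, rfl⟩ : a = 0 ∧ b = 0 := by omega
    have : m = 0 := by
      ext i
      by_cases hi : i = 0
      · simpa [hi] using h.1
      · have := Finset.card_eq_zero.1 h.2.2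
        by_contra hne
        have h4 : i ∈ m.support.erase 0 := by simpa [hi] using hne
        rw [this] at h4; simp at h4
    simp [this]
  | succ j ih =>
    intro m a b h hab
    rw [pow_succ, lemA 2 (by norm_num), sum_split _ _ (fun h0 => if_neg (by simp [h0])), add_mul,
      Finset.sum_mul]
    have h1 : ∀ i ∈ m.support.erase 0, (if single i 2 ≤ m then
        coeff (m - single i 2) (psum 2 ^ j) else 0) * (a.factorial : ℝ) = j.factorial := by
      intro i hi
      have hb : 0 < b := by rw [← h.2.2]; exact Finset.card_pos.2 ⟨i, hi⟩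
      have h2 := h.2.1 i (Finset.mem_erase.1 hi).1
      have h3 := mem_support_iff.1 (Finset.mem_erase.1 hi).2
      rw [if_pos (by simp; omega)]
      exact ih _ _ _ (sh1 h hi) (by omega)
    rw [Finset.sum_congr rfl h1, Finset.sum_const, h.2.2, nsmul_eq_mul]
    have hj : (a : ℝ) + b = j + 1 := by exact_mod_cast hab
    rcases a with _ | a
    · rw [if_neg (by simp [h.1])]
      push_cast [Nat.factorial_succ] at hj ⊢; rw [← hj]; ring
    · rw [if_pos (by simp [h.1])]
      have := ih _ _ _ (sh0 (r := 1) h) (by omega)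
      push_cast [Nat.factorial_succ] at hj ⊢
      rw [← hj]
      linear_combination (a + 1 : ℝ) * this

theorem lemC (j r : ℕ) (hr : 2 ≤ r) (m : ℕ →₀ ℕ) (a b : ℕ) (h : Sh m a b) (hab : a + b = j + r) :
    coeff m (psum 2 ^ j * psum (2 * r)) * a.factorial = j.factorial * a.descFactorial r := by
  classical
  rw [lemA _ (by omega), sum_split _ _ (fun h0 => if_neg (by rw [single_le_iff]; omega)),
    Finset.sum_eq_zero, add_zero]
  · by_cases hra : r ≤ a
    · obtain ⟨a, rfl⟩ := Nat.exists_eq_add_of_le' hra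
      rw [if_pos (by rw [single_le_iff, h.1]; omega), ← lemB j _ _ _ (sh0 h) (by omega),
        ← Nat.factorial_mul_descFactorial hra, Nat.add_sub_cancel]
      push_cast; ring
    · rw [if_neg (by rw [single_le_iff, h.1]; omega), Nat.descFactorial_of_lt (by omega)]; simp
  · intro i hi
    have := h.2.1 i (Finset.mem_erase.1 hi).1
    exact if_neg (by rw [single_le_iff]; omega)

theorem exSh (a b : ℕ) : ∃ m, Sh m a b := by
  refine ⟨onFinset (Finset.range (b + 1)) (fun i => if i = 0 then 2 * a else if i ≤ b then 2 else 0)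
    (fun i hi => by simp only [Finset.mem_range]; split_ifs at hi <;> omega), by simp,
    fun i hi => by simp only [onFinset_apply, if_neg hi]; split_ifs <;> simp, ?_⟩
  refine Eq.trans ?_ ((Nat.card_Icc 1 b).trans (by omega : b + 1 - 1 = b))
  congr 1; ext i
  simp only [Finset.mem_erase, mem_support_iff, onFinset_apply, Finset.mem_Icc]
  split_ifs <;> omega

noncomputable def g : MvPolynomial ℕ ℝ :=
  .C 486 * .X 3 - .C 621 * (.X 0 * .X 2) + .C 189 * (.X 0 ^ 2 * .X 1) + .C 4 * .X 0 ^ 4

theorem neg (k : ℕ) : ∃ m, coeff m (psum 2 ^ k * ser g) < 0 := by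
  have key : ∃ a b : ℕ, a + b = k + 4 ∧ (486 * a.descFactorial 4 - 621 * (k + 1) *
      a.descFactorial 3 + 189 * (k + 2) * (k + 1) * a.descFactorial 2 +
      4 * (k + 4) * (k + 3) * (k + 2) * (k + 1) : ℝ) < 0 := by
    have hs : (0 : ℝ) ≤ (k / 3 : ℕ) := by positivity
    obtain h | h | h : k = 3 * (k / 3) ∨ k = 3 * (k / 3) + 1 ∨ k = 3 * (k / 3) + 2 := by omega
    all_goals generalize k / 3 = s at h hs; subst h
    · refine ⟨2 * s + 3, s + 1, by omega, ?_⟩
      simp only [Nat.descFactorial_succ, Nat.descFactorial_zero, Nat.add_succ_sub_one,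
        Nat.add_zero, Nat.sub_zero, Nat.add_sub_cancel]
      push_cast; nlinarith [pow_nonneg hs 2, pow_nonneg hs 3]
    · refine ⟨2 * s + 3, s + 2, by omega, ?_⟩
      simp only [Nat.descFactorial_succ, Nat.descFactorial_zero, Nat.add_succ_sub_one,
        Nat.add_zero, Nat.sub_zero, Nat.add_sub_cancel]
      push_cast; nlinarith [pow_nonneg hs 2, pow_nonneg hs 3]
    · refine ⟨2 * s + 4, s + 2, by omega, ?_⟩
      simp only [Nat.descFactorial_succ, Nat.descFactorial_zero, Nat.add_succ_sub_one,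
        Nat.add_zero, Nat.sub_zero, Nat.add_sub_cancel]
      push_cast; nlinarith [pow_nonneg hs 2, pow_nonneg hs 3]
  obtain ⟨a, b, hab, h⟩ := key
  obtain ⟨m, hm⟩ := exSh a b
  refine ⟨m, ?_⟩
  have e : psum 2 ^ k * ser g = (486 : ℝ) • (psum 2 ^ k * psum (2 * 4)) -
      (621 : ℝ) • (psum 2 ^ (k + 1) * psum (2 * 3)) +
      (189 : ℝ) • (psum 2 ^ (k + 2) * psum (2 * 2)) + (4 : ℝ) • psum 2 ^ (k + 4) := by
    simp only [ser, g, map_add, map_sub, map_mul, map_pow, MvPolynomial.aeval_X,
      MvPolynomial.aeval_C, Algebra.smul_def]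
    ring
  have h1 := lemC k 4 (by norm_num) m a b hm hab
  have h2 := lemC (k + 1) 3 (by norm_num) m a b hm (by omega)
  have h3 := lemC (k + 2) 2 (by norm_num) m a b hm (by omega)
  have h4 := lemB (k + 4) m a b hm hab
  have ha : (0 : ℝ) < a.factorial := by positivity
  have hk : (0 : ℝ) < k.factorial := by positivity
  refine neg_of_mul_neg_left (b := (a.factorial : ℝ)) ?_ ha.le
  rw [e]
  simp only [map_add, map_sub, coeff_smul, add_mul, sub_mul, mul_assoc, h1, h2, h3, h4]
  push_cast [Nat.factorial_succ]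
  nlinarith [mul_neg_of_pos_of_neg hk h]

theorem pos (x : ℕ → ℝ) (hs : Summable fun i => x i ^ 2) (h1 : ∑' i, x i ^ 2 = 1) :
    0 < val g x := by
  set y : ℕ → ℝ := fun i => x i ^ 2 with hy
  have y0 : ∀ i, 0 ≤ y i := fun i => sq_nonneg _
  have y1 : ∀ i, y i ≤ 1 := fun i => h1 ▸ hs.le_tsum i fun j _ => y0 j
  have hp : ∀ n, Summable fun i => y i ^ (n + 1) := fun n =>
    Summable.of_nonneg_of_le (fun i => pow_nonneg (y0 i) _)
      (fun i => by rw [pow_succ]; exact mul_le_of_le_one_left (y0 i) (pow_le_one₀ (y0 i) (y1 i))) hs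
  set h : ℝ → ℝ := fun t => 486 * t ^ 4 - 621 * t ^ 3 + 189 * t ^ 2 with hh
  have hS : HasSum (fun i => h (y i)) (val g x - 4) := by
    have := (((hp 3).hasSum.mul_left 486).sub ((hp 2).hasSum.mul_left 621)).add
      ((hp 1).hasSum.mul_left 189)
    have e : val g x - 4 = 486 * ∑' i, y i ^ (3 + 1) - 621 * ∑' i, y i ^ (2 + 1) +
        189 * ∑' i, y i ^ (1 + 1) := by
      simp only [val, g, map_add, map_sub, map_mul, map_pow, MvPolynomial.eval_X,
        MvPolynomial.eval_C, pow_mul, zero_add, pow_one]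
      rw [h1]; ring
    rw [e]; exact this
  have hn : ∀ t, 0 ≤ t → t ≤ 1 / 2 → 0 ≤ h t := fun t h0 h2 => by
    have : h t = 27 * t ^ 2 * ((1 - 2 * t) * (7 - 9 * t)) := by simp only [hh]; ring
    rw [this]; exact mul_nonneg (by positivity) (mul_nonneg (by linarith) (by linarith))
  by_cases hc : ∀ i, y i ≤ 1 / 2
  · have := hS.nonneg fun i => hn _ (y0 i) (hc i)
    linarith
  push Not at hc
  obtain ⟨j, hj⟩ := hc
  have h2 : ∀ i ≠ j, y i + y j ≤ 1 := fun i hi => by
    have := hs.sum_le_tsum {i, j} fun k _ => y0 k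
    rwa [Finset.sum_pair hi, h1] at this
  have h3 : ∀ i ≠ j, 0 ≤ h (y i) := fun i hi => hn _ (y0 i) (by linarith [h2 i hi])
  have h4 : h (y j) + 4 = (3 * y j - 2) ^ 2 * (54 * y j ^ 2 + 3 * y j + 1) := by
    simp only [hh]; ring
  have h5 : 0 < 54 * y j ^ 2 + 3 * y j + 1 := by positivity
  by_cases h6 : 3 * y j - 2 = 0
  · obtain ⟨i, hi, hi0⟩ : ∃ i ≠ j, y i ≠ 0 := by
      by_contra hn
      push Not at hn
      rw [tsum_eq_single j hn] at h1
      linarith
    have h7 := sum_le_hasSum {i, j} (fun k hk => h3 k (by rintro rfl; simp at hk)) hS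
    rw [Finset.sum_pair hi] at h7
    have h8 : 0 < h (y i) := by
      have : h (y i) = 27 * y i ^ 2 * ((1 - 2 * y i) * (7 - 9 * y i)) := by simp only [hh]; ring
      have h9 := h2 i hi
      rw [this]; exact mul_pos (by positivity) (mul_pos (by linarith) (by linarith))
    rw [h6] at h4
    linarith
  · have h7 := le_hasSum hS j h3
    have : 0 < (3 * y j - 2) ^ 2 * (54 * y j ^ 2 + 3 * y j + 1) := by positivity
    linarith

theorem result : ∃ (d : ℕ) (g : MvPolynomial ℕ ℝ),
    g.IsWeightedHomogeneous (fun j => 2 * (j + 1)) (2 * d) ∧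
    (∀ x : ℕ → ℝ, (Summable fun i => x i ^ 2) → ∑' i, x i ^ 2 = 1 → 0 < val g x) ∧
    ∀ k : ℕ, ¬ ∃ c : (2 * d + 2 * k).Partition → ℝ, (∀ l, 0 ≤ c l) ∧
      psum 2 ^ k * ser g = ∑ l, c l • msym l.parts := by
  refine ⟨4, g, ?_, pos, fun k ⟨c, hc, h⟩ => ?_⟩
  · have hX := fun j => MvPolynomial.isWeightedHomogeneous_X ℝ (fun j : ℕ => 2 * (j + 1)) j
    have hC := fun r : ℝ => MvPolynomial.isWeightedHomogeneous_C (fun j : ℕ => 2 * (j + 1)) r
    have a1 := (hC 486).mul (hX 3)
    have a2 := (hC 621).mul ((hX 0).mul (hX 2))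
    have a3 := (hC 189).mul (((hX 0).pow 2).mul (hX 1))
    have a4 := (hC 4).mul ((hX 0).pow 4)
    norm_num only [smul_eq_mul] at a1 a2 a3 a4 ⊢
    exact ((a1.sub a2).add a3).add a4
  · obtain ⟨m, hm⟩ := neg k
    rw [h, map_sum] at hm
    refine absurd hm (not_lt.2 (Finset.sum_nonneg fun l _ => ?_))
    rw [coeff_smul]
    refine mul_nonneg (hc l) ?_
    show 0 ≤ (if _ then (1 : ℝ) else 0)
    split_ifs <;> norm_num

end Pool.Agent.Results.MP_2f3180_ag.NoPolya
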